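import Pool.Agent.H92.EQ.TK

/-!
Row KL of eqd_modules
-/

namespace Pool.Agent.H72.EQ

open scoped BigOperators ComplexConjugate ContDiff ComplexOrder
open MeasureTheory Pool.Agent.H92.EQ

theorem nsq_nn {N : ℕ} (z : Fin N → ℂ) : 0 ≤ nsq z :=
  Finset.sum_nonneg fun i _ => by positivity

theorem nrm_nn {N : ℕ} (z : Fin N → ℂ) : 0 ≤ nrm z := Real.sqrt_nonneg _

theorem le_nrm {N : ℕ} (z : Fin N → ℂ) (i : Fin N) : ‖z i‖ ≤ nrm z := by
  unfold nrm
  apply Real.le_sqrt_of_sq_le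
  unfold nsq
  exact Finset.single_le_sum (f := fun i => ‖z i‖ ^ 2) (fun i _ => by positivity)
    (Finset.mem_univ i)

theorem nrm_ps {N : ℕ} (z : Fin N → ℂ) (hz : z ≠ 0) : 0 < nrm z := by
  obtain ⟨i, hi⟩ := Function.ne_iff.1 hz
  exact lt_of_lt_of_le (norm_pos_iff.2 hi) (le_nrm z i)

theorem nrm_le_sum {N : ℕ} (z : Fin N → ℂ) : nrm z ≤ ∑ i, ‖z i‖ := by
  unfold nrm
  rw [Real.sqrt_le_left (Finset.sum_nonneg fun i _ => norm_nonneg _)]
  unfold nsq
  exact Finset.sum_sq_le_sq_sum_of_nonneg fun i _ => norm_nonneg _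

/-- the bound of a homogeneous polynomial -/
theorem eval_bd {N d : ℕ} (P : MvPolynomial (Fin N) ℂ) (hP : P.IsHomogeneous d) :
    ∃ C : ℝ, 0 ≤ C ∧ ∀ z : Fin N → ℂ, ‖MvPolynomial.eval z P‖ ≤ C * nrm z ^ d := by
  refine ⟨∑ m ∈ P.support, ‖P.coeff m‖, Finset.sum_nonneg fun m _ => norm_nonneg _,
    fun z => ?_⟩
  rw [MvPolynomial.eval_eq', Finset.sum_mul]
  refine (norm_sum_le _ _).trans (Finset.sum_le_sum fun m hm => ?_)
  rw [norm_mul, norm_prod]
  refine mul_le_mul_of_nonneg_left ?_ (norm_nonneg _)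
  have h1 : ∏ i, ‖z i ^ m i‖ ≤ ∏ i, nrm z ^ m i := by
    refine Finset.prod_le_prod (fun i _ => norm_nonneg _) fun i _ => ?_
    rw [norm_pow]
    exact pow_le_pow_left₀ (norm_nonneg _) (le_nrm z i) _
  refine h1.trans (le_of_eq ?_)
  rw [Finset.prod_pow_eq_pow_sum]
  congr 1
  have h2 := hP (MvPolynomial.mem_support_iff.1 hm)
  rw [← h2, Finsupp.weight_apply, Finsupp.sum_fintype _ _ (by simp)]
  simp

theorem ev_bd {N d : ℕ} (F : Fin N → MvPolynomial (Fin N) ℂ) (hF : IsH d F) :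
    ∃ C : ℝ, 1 ≤ C ∧ ∀ z : Fin N → ℂ, nrm (ev F z) ≤ C * nrm z ^ d := by
  choose C hC0 hC using fun i => eval_bd (F i) (hF.hom i)
  refine ⟨1 + ∑ i, C i, ?_, fun z => ?_⟩
  · linarith [Finset.sum_nonneg (s := Finset.univ) (f := C) fun i _ => hC0 i]
  · refine (nrm_le_sum _).trans ?_
    have h1 : ∑ i, ‖ev F z i‖ ≤ ∑ i, C i * nrm z ^ d := Finset.sum_le_sum fun i _ => hC i z
    rw [← Finset.sum_mul] at h1
    have h2 : 0 ≤ nrm z ^ d := pow_nonneg (nrm_nn z) d
    linarith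

theorem iter_one {N : ℕ} (F : Fin N → MvPolynomial (Fin N) ℂ) : iter F 1 = F := by
  funext i
  change MvPolynomial.bind₁ (fun i => MvPolynomial.X i) (F i) = F i
  rw [MvPolynomial.bind₁_X_left]
  rfl

theorem pf_KL (hD12 : T_D12) (hKB : T_KB) : T_KL := by
  intro N d F hN hd hF
  obtain ⟨-, -, hdet, -, -⟩ := hKB N d F hN hd hF
  obtain ⟨C, hC1, hC⟩ := ev_bd F hF
  have hC0 : 0 < C := by linarith
  refine ⟨(C ^ N)⁻¹, by positivity, inv_le_one_of_one_le₀ (one_le_pow₀ hC1), ?_⟩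
  intro n x hx
  have hx0 := nrm_ps x hx
  induction n with
  | zero =>
    have h1 : ev (iter F 0) x = x := by
      funext i
      change MvPolynomial.eval x (MvPolynomial.X i) = x i
      rw [MvPolynomial.eval_X]
    have h2 : jac (iter F 0) x = 1 := by
      funext i a
      change MvPolynomial.eval x (MvPolynomial.pderiv a (MvPolynomial.X i)) = _
      rw [MvPolynomial.pderiv_X, Matrix.one_apply]
      by_cases h : i = a
      · subst h; simp
      · rw [if_neg h, Pi.single_apply, if_neg h]; simp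
    unfold relJ
    rw [h1, h2, Matrix.det_one]
    simp only [pow_zero, Finset.range_zero, Finset.prod_empty, mul_one, norm_one, one_mul]
    rw [div_self (pow_ne_zero _ hx0.ne')]
  | succ n ih =>
    obtain ⟨hH, hev, hjac, -, -⟩ := hD12 N d F (by omega) hF 1 n
    set y : Fin N → ℂ := ev (iter F n) x with hy
    have hy0 : y ≠ 0 := fun h => hx (hH.nd x h)
    have hyp := nrm_ps y hy0
    have hFy0 : ev F y ≠ 0 := fun h => hy0 (hF.nd y h)
    have hFyp := nrm_ps (ev F y) hFy0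
    have hstep : relJ (iter F (n + 1)) x = relJ F y * relJ (iter F n) x := by
      rw [add_comm n 1]
      unfold relJ
      rw [hev x, hjac x, iter_one, Matrix.det_mul, norm_mul, ← hy]
      field_simp
    have hlow : (C ^ N)⁻¹ * nv (detP F) (N * (d - 1)) y ≤ relJ F y := by
      unfold relJ nv
      rw [hdet y]
      have h1 : nrm (ev F y) ^ N ≤ C ^ N * nrm y ^ (N * (d - 1)) * nrm y ^ N := by
        calc nrm (ev F y) ^ N ≤ (C * nrm y ^ d) ^ N :=
              pow_le_pow_left₀ (nrm_nn _) (hC y) N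
          _ = C ^ N * nrm y ^ (N * (d - 1)) * nrm y ^ N := by
              rw [mul_pow, ← pow_mul, mul_assoc, ← pow_add]
              congr 2
              obtain ⟨e, rfl⟩ := Nat.exists_eq_add_of_le (show 1 ≤ d by omega)
              rw [Nat.add_sub_cancel_left]
              ring
      rw [le_div_iff₀ (pow_pos hFyp N)]
      have h2 : 0 ≤ (C ^ N)⁻¹ * (‖(jac F y).det‖ / nrm y ^ (N * (d - 1))) := by positivity
      refine (mul_le_mul_of_nonneg_left h1 h2).trans (le_of_eq ?_)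
      have h3 : nrm y ^ (N * (d - 1)) ≠ 0 := pow_ne_zero _ hyp.ne'
      have h4 : C ^ N ≠ 0 := pow_ne_zero _ hC0.ne'
      field_simp
    rw [hstep, Finset.prod_range_succ, ← hy, pow_succ]
    have hnv0 : 0 ≤ nv (detP F) (N * (d - 1)) y := by
      unfold nv
      exact div_nonneg (norm_nonneg _) (pow_nonneg (nrm_nn y) _)
    have hprod0 : 0 ≤ ∏ m ∈ Finset.range n, nv (detP F) (N * (d - 1)) (ev (iter F m) x) :=
      Finset.prod_nonneg fun m _ => by
        unfold nv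
        exact div_nonneg (norm_nonneg _) (pow_nonneg (nrm_nn _) _)
    calc (C ^ N)⁻¹ ^ n * (C ^ N)⁻¹ *
        ((∏ m ∈ Finset.range n, nv (detP F) (N * (d - 1)) (ev (iter F m) x)) *
          nv (detP F) (N * (d - 1)) y) =
        ((C ^ N)⁻¹ * nv (detP F) (N * (d - 1)) y) * ((C ^ N)⁻¹ ^ n *
          ∏ m ∈ Finset.range n, nv (detP F) (N * (d - 1)) (ev (iter F m) x)) := by ring
      _ ≤ relJ F y * relJ (iter F n) x := by
          have hc0 : 0 ≤ (C ^ N)⁻¹ := inv_nonneg.2 (pow_nonneg hC0.le N)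
          exact mul_le_mul hlow ih (mul_nonneg (pow_nonneg hc0 n) hprod0)
            (le_trans (mul_nonneg hc0 hnv0) hlow)

end Pool.Agent.H72.EQ
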