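import Pool.Agent.H92.EQ.TK

/-!
Rows KD, KE2, KZ of eqd_modules
-/

namespace Pool.Agent.H72.EQ

open scoped BigOperators ComplexConjugate ContDiff ComplexOrder
open MeasureTheory Pool.Agent.H92.EQ

theorem pf_KZ (hKN : T_KN) (hKO : T_KO) (hTZ : T_TZ) (hIZ : T_IZ) (hLE : T_LE) : T_KZ := by
  intro N d p F hd hF hP
  have key : ∀ k p, N ≤ p + k → Conv F d p := by
    intro k
    induction k with
    | zero =>
      intro p hp q hq
      omega
    | succ k ih =>
      intro p hp
      by_cases h : N ≤ p
      · intro q hq
        omega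
      · exact hKO N d p F hd (by omega) hF
          (hKN N d p F hd (by omega) hF (ih (p + 1) (by omega)) hP (fun q => hLE N p q))
          (fun q => hTZ N p q) (fun q => hIZ N p q)
  exact key N p (by omega)

theorem pf_KD (hP1 : T_P1) (hP2 : T_P2) (hS6 : T_S6) (hL1 : T_L1) : T_KD := by
  intro N p q S u j W E G L hN hS hu hW hE hG hL
  have hLH : ∀ v : (Fin N → ℂ) → ℝ, Pot v → LH 1 v := fun v hv =>
    (hL1 N 1 1 1 1 v v).2.2.1 hv
  have hup : ∀ v : (Fin N → ℂ) → ℝ, Pot v → ∀ i : Fin q,
      LH ((fun _ => 1 : Fin q → ℝ) i) (Function.update u j v i) := by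
    intro v hv i
    by_cases hi : i = j
    · subst hi
      rw [Function.update_self]
      exact hLH v hv
    · rw [Function.update_of_ne hi]
      exact hLH _ (hu i)
  have hint : ∀ v w x : (Fin N → ℂ) → ℝ, Pot v → Pot w → Pot x →
      IntegrableOn (fun z => (fun z => w z - x z) z * Q S (Function.update u j v) z)
        {z : Fin N → ℂ | 0 ≤ ell z ∧ ell z < 1} := by
    intro v w x hv hw hx
    exact (hP1 N p q S (Function.update u j v) (fun _ => 1) hN hS (hup v hv)).2
      (fun z => w z - x z) (hw.smooth.continuousOn.sub hx.smooth.continuousOn)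
  have hlin : ∀ v v' w x : (Fin N → ℂ) → ℝ, Pot v → Pot v' → Pot w → Pot x →
      pair (fun z => w z - x z) S (Function.update u j (fun z => v z - v' z)) =
        pair (fun z => w z - x z) S (Function.update u j v) -
          pair (fun z => w z - x z) S (Function.update u j v') := by
    intro v v' w x hv hv' hw hx
    have h := (hP2 N p q S u (fun _ => 1) j v v' 1 1 1 (-1) (fun z => w z - x z) hN hS
      (fun i => hLH _ (hu i)) (hLH v hv) (hLH v' hv') (hint v w x hv hw hx)
      (hint v' w x hv' hw hx)).1
    have he : (fun z => 1 * v z + -1 * v' z) = fun z => v z - v' z := by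
      funext z; ring
    rw [he] at h
    rw [h]; ring
  have hHom : ∀ v w : (Fin N → ℂ) → ℝ, Pot v → Pot w → Hom0 (fun z => v z - w z) := by
    intro v w hv hw
    have h1 := (hL1 N 1 1 1 (-1) v w).1 (hLH v hv) (hLH w hw)
    have he : (fun z => 1 * v z + -1 * w z) = fun z => v z - w z := by
      funext z; ring
    rw [he, show (1 : ℝ) * 1 + -1 * 1 = 0 by norm_num] at h1
    exact (hL1 N 1 1 1 1 (fun z => v z - w z) v).2.1.2 h1
  have h1 := hS6 N p q S u (fun _ => 1) j (fun z => E z - W z) (fun z => G z - L z) hN hS
    (fun i => hLH _ (hu i)) (hHom E W hE hW) (hHom G L hG hL)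
  rw [hlin G L E W hG hL hE hW, hlin E W G L hE hW hG hL] at h1
  linarith

theorem pf_KE2 (hKD : T_KD) (hP1 : T_P1) (hP2 : T_P2) (hL1 : T_L1) : T_KE2 := by
  intro N p q S W E G L hN hS hW hE hG hL
  have hLH : ∀ v : (Fin N → ℂ) → ℝ, Pot v → LH 1 v := fun v hv =>
    (hL1 N 1 1 1 1 v v).2.2.1 hv
  -- the slots
  have hpot : ∀ j : ℕ, ∀ k : Fin (q + 1), Pot (if (k : ℕ) < j then G else L) := by
    intro j k
    split_ifs
    · exact hG
    · exact hL
  have hperm : ∀ (u : Fin (q + 1) → (Fin N → ℂ) → ℝ), (∀ i, Pot (u i)) →
      ∀ π : Equiv.Perm (Fin (q + 1)),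
      pair (fun z => G z - L z) S (fun i => u (π i)) = pair (fun z => G z - L z) S u := by
    intro u hu π
    have hi : IntegrableOn (fun z => (fun z => G z - L z) z *
        Q S (Function.update u 0 G) z) {z : Fin N → ℂ | 0 ≤ ell z ∧ ell z < 1} := by
      refine (hP1 N p (q + 1) S (Function.update u 0 G) (fun _ => 1) hN hS ?_).2
        (fun z => G z - L z) (hG.smooth.continuousOn.sub hL.smooth.continuousOn)
      intro i
      by_cases hi : i = 0
      · subst hi
        rw [Function.update_self]
        exact hLH G hG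
      · rw [Function.update_of_ne hi]
        exact hLH _ (hu i)
    exact (hP2 N p (q + 1) S u (fun _ => 1) 0 G G 1 1 1 1 (fun z => G z - L z) hN hS
      (fun i => hLH _ (hu i)) (hLH G hG) (hLH G hG) hi hi).2 π
  have hstep : ∀ j : Fin (q + 1),
      pair (fun z => E z - W z) S (fun k : Fin (q + 1) => if (k : ℕ) < (j : ℕ) then G else L) -
        pair (fun z => E z - W z) S
          (fun k : Fin (q + 1) => if (k : ℕ) < (j : ℕ) + 1 then G else L) =
      pair (fun z => G z - L z) S (Fin.cons (α := fun _ => (Fin N → ℂ) → ℝ) W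
          (fun k : Fin q => if (k : ℕ) < (j : ℕ) then G else L)) -
        pair (fun z => G z - L z) S (Fin.cons (α := fun _ => (Fin N → ℂ) → ℝ) E
          (fun k : Fin q => if (k : ℕ) < (j : ℕ) then G else L)) := by
    intro j
    have h := hKD N p (q + 1) S (fun k : Fin (q + 1) => if (k : ℕ) < (j : ℕ) then G else L) j
      W E G L hN hS (hpot j) hW hE hG hL
    have e1 : Function.update (fun k : Fin (q + 1) => if (k : ℕ) < (j : ℕ) then G else L) j L =
        fun k : Fin (q + 1) => if (k : ℕ) < (j : ℕ) then G else L := by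
      funext k
      by_cases hk : k = j
      · subst hk
        rw [Function.update_self, if_neg (lt_irrefl _)]
      · rw [Function.update_of_ne hk]
    have e2 : Function.update (fun k : Fin (q + 1) => if (k : ℕ) < (j : ℕ) then G else L) j G =
        fun k : Fin (q + 1) => if (k : ℕ) < (j : ℕ) + 1 then G else L := by
      funext k
      by_cases hk : k = j
      · subst hk
        rw [Function.update_self, if_pos (Nat.lt_succ_self _)]
      · rw [Function.update_of_ne hk]
        have hk' : (k : ℕ) ≠ j := fun h => hk (Fin.ext h)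
        have : ((k : ℕ) < (j : ℕ)) ↔ ((k : ℕ) < (j : ℕ) + 1) := by omega
        simp only [this]
    have e3 : ∀ V : (Fin N → ℂ) → ℝ, Pot V →
        pair (fun z => G z - L z) S
          (Function.update (fun k : Fin (q + 1) => if (k : ℕ) < (j : ℕ) then G else L) j V) =
        pair (fun z => G z - L z) S (Fin.cons (α := fun _ => (Fin N → ℂ) → ℝ) V
          (fun k : Fin q => if (k : ℕ) < (j : ℕ) then G else L)) := by
      intro V hV
      rw [← hperm (Function.update
        (fun k : Fin (q + 1) => if (k : ℕ) < (j : ℕ) then G else L) j V) ?_ (j.cycleRange.symm)]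
      · congr 1
        funext i
        refine Fin.cases ?_ (fun k => ?_) i
        · rw [Fin.cons_zero, Fin.cycleRange_symm_zero, Function.update_self]
        · rw [Fin.cons_succ, Fin.cycleRange_symm_succ,
            Function.update_of_ne (Fin.succAbove_ne j k)]
          rcases lt_or_ge (k : ℕ) (j : ℕ) with hkj | hkj
          · have hs : j.succAbove k = k.castSucc := Fin.succAbove_of_castSucc_lt _ _ hkj
            rw [hs]
            simp [hkj]
          · have hs : j.succAbove k = k.succ := Fin.succAbove_of_le_castSucc _ _ hkj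
            rw [hs, if_neg (by rw [Fin.val_succ]; omega), if_neg (by omega)]
      · intro i
        by_cases hi : i = j
        · subst hi
          rw [Function.update_self]
          exact hV
        · rw [Function.update_of_ne hi]
          exact hpot j i
    rw [e1, e2, e3 W hW, e3 E hE] at h
    exact h
  rw [← Finset.sum_congr rfl (fun j _ => hstep j),
    Fin.sum_univ_eq_sum_range (fun j : ℕ =>
      pair (fun z => E z - W z) S (fun k : Fin (q + 1) => if (k : ℕ) < j then G else L) -
        pair (fun z => E z - W z) S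
          (fun k : Fin (q + 1) => if (k : ℕ) < j + 1 then G else L)) (q + 1),
    Finset.sum_range_sub' (fun j : ℕ =>
      pair (fun z => E z - W z) S (fun k : Fin (q + 1) => if (k : ℕ) < j then G else L))]
  congr 2
  funext k
  rw [if_pos k.isLt]

end Pool.Agent.H72.EQ
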